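import Pool.Agent.W458.FJ.Stm

set_option autoImplicit false

/-! Part FJ-GEO of project FJ (helper458). -/

namespace Pool.Agent.W854.FJ.GEO

open MvPolynomial Pool.Agent.W458.FJ

/-- a polynomial without monomial in the variables of `K` vanishes at the points supported on
`K` -/
lemma eval_zero_of_not_nz {ι : Type} (f : MvPolynomial ι ℂ) (K : Finset ι) (h : ¬ nz f K)
    (v : ι → ℂ) (hv : ∀ i, i ∉ K → v i = 0) : eval v f = 0 := by
  classical
  rw [MvPolynomial.eval_eq]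
  apply Finset.sum_eq_zero
  intro m hm
  have hns : ¬ m.support ⊆ K := fun hs => h ⟨m, hm, hs⟩
  rw [Finset.not_subset] at hns
  obtain ⟨i, hi, hiK⟩ := hns
  have h0 : ∏ j ∈ m.support, v j ^ m j = 0 := by
    apply Finset.prod_eq_zero hi
    rw [hv i hiK]
    exact zero_pow (Finsupp.mem_support_iff.1 hi)
  rw [h0, mul_zero]

theorem main : Pool.Agent.W458.FJ.Z1 → Pool.Agent.W458.FJ.Z2 → Pool.Agent.W458.FJ.GEO := by
  intro hZ1 hZ2 ι _ _ a d₁ d₂ f₁ f₂ hS K hK hno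
  refine ⟨?_, ?_, ?_⟩
  · by_contra hcon
    push Not at hcon
    obtain ⟨i, hi⟩ := hK
    let v : ι → ℂ := fun j => if j ∈ K then 1 else 0
    have hv0 : ∀ j, j ∉ K → v j = 0 := by
      intro j hj
      simp [v, hj]
    have hvne : v ≠ 0 := by
      intro h
      have h1 := congrFun h i
      simp [v, hi] at h1
    exact hno v hvne hv0 ⟨eval_zero_of_not_nz f₁ K hcon.1 v hv0,
      eval_zero_of_not_nz f₂ K hcon.2 v hv0⟩
  · intro h2
    constructor
    · by_contra hcon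
      obtain ⟨v, hv, hv0, hf⟩ := hZ1 ι a hS.ha d₂ hS.hd₂ f₂ hS.hf₂ K h2
      exact hno v hv hv0 ⟨eval_zero_of_not_nz f₁ K hcon v hv0, hf⟩
    · by_contra hcon
      obtain ⟨v, hv, hv0, hf⟩ := hZ1 ι a hS.ha d₁ hS.hd₁ f₁ hS.hf₁ K h2
      exact hno v hv hv0 ⟨hf, eval_zero_of_not_nz f₂ K hcon v hv0⟩
  · by_contra hcon
    push Not at hcon
    obtain ⟨v, hv, hv0, hf⟩ := hZ2 ι a hS.ha d₁ d₂ hS.hd₁ hS.hd₂ f₁ f₂ hS.hf₁ hS.hf₂ K hcon
    exact hno v hv hv0 hf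

end Pool.Agent.W854.FJ.GEO
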